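import Pool.Agent.Y922.AP.Stm3
import Pool.Agent.Y340.AP.Strip

set_option autoImplicit false

/-!
Project AQ, job CHISTRIP: completed L-functions of primitive characters are small in vertical
strips. The proof follows the one for the xi function in `Pool.Agent.Y340.AP.Strip`.
-/

namespace Pool.Agent.Y312.AQ

open Complex Filter Topology Set MeasureTheory Pool.Agent.Y922.AP Pool.Agent.Y340.AP

lemma even0_bound (a : UnitAddCircle) (b : ℝ) :
    ∃ C : ℝ, 0 ≤ C ∧ ∀ s : ℂ, |s.re| ≤ b → ‖HurwitzZeta.completedHurwitzZetaEven₀ a s‖ ≤ C := by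
  obtain ⟨C, hC⟩ := mellin_bound (HurwitzZeta.hurwitzEvenFEPair a).f_modif
    (fun s => ((HurwitzZeta.hurwitzEvenFEPair a).isStrongFEPair_toStrongFEPair.hasMellin s).1) b
  refine ⟨|C|, abs_nonneg _, fun s hs => ?_⟩
  have e : HurwitzZeta.completedHurwitzZetaEven₀ a s =
      mellin (HurwitzZeta.hurwitzEvenFEPair a).f_modif (s / 2) / 2 := rfl
  rw [e, norm_div]
  have h1 : |(s / 2).re| ≤ b := by
    have e2 : (s / 2).re = s.re / 2 := by simp
    rw [e2, abs_div, abs_two]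
    have := abs_nonneg s.re
    linarith
  have h2 := hC _ h1
  have h3 : ‖(2:ℂ)‖ = 2 := by simp
  rw [h3]
  have := le_abs_self C
  have := norm_nonneg (mellin (HurwitzZeta.hurwitzEvenFEPair a).f_modif (s / 2))
  linarith

lemma odd_bound (a : UnitAddCircle) (b : ℝ) :
    ∃ C : ℝ, 0 ≤ C ∧ ∀ s : ℂ, |s.re| ≤ b → ‖HurwitzZeta.completedHurwitzZetaOdd a s‖ ≤ C := by
  obtain ⟨C, hC⟩ := mellin_bound (HurwitzZeta.hurwitzOddFEPair a).f
    (fun s => ((HurwitzZeta.isStrong_hurwitzOddFEPair a).hasMellin s).1) (b + 1)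
  refine ⟨|C|, abs_nonneg _, fun s hs => ?_⟩
  have e : HurwitzZeta.completedHurwitzZetaOdd a s =
      mellin (HurwitzZeta.hurwitzOddFEPair a).f ((s + 1) / 2) / 2 := by
    have h := ((HurwitzZeta.isStrong_hurwitzOddFEPair a).hasMellin ((s + 1) / 2)).2
    rw [h]
    rfl
  rw [e, norm_div]
  have h1 : |((s + 1) / 2).re| ≤ b + 1 := by
    have e2 : ((s + 1) / 2).re = (s.re + 1) / 2 := by simp
    rw [e2]
    have h4 := abs_le.1 hs
    have h5 : 0 ≤ b := (abs_nonneg _).trans hs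
    exact abs_le.2 ⟨by linarith, by linarith⟩
  have h2 := hC _ h1
  have h3 : ‖(2:ℂ)‖ = 2 := by simp
  rw [h3]
  have := le_abs_self C
  have := norm_nonneg (mellin (HurwitzZeta.hurwitzOddFEPair a).f ((s + 1) / 2))
  linarith

lemma Lambda_bound {d : ℕ} [NeZero d] (ψ : DirichletCharacter ℂ d) (hd : d ≠ 1) (hψ : ψ ≠ 1)
    (b : ℝ) : ∃ C : ℝ, 0 ≤ C ∧ ∀ s : ℂ, |s.re| ≤ b →
      ‖DirichletCharacter.completedLFunction ψ s‖ ≤ C := by
  choose E hE0 hE using fun a : UnitAddCircle => even0_bound a b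
  choose O hO0 hO using fun a : UnitAddCircle => odd_bound a b
  have hd0 : 0 < d := Nat.pos_of_ne_zero (NeZero.ne d)
  have hd1 : (1 : ℝ) ≤ d := by exact_mod_cast hd0
  have hs0 : ∀ F : UnitAddCircle → ℝ, (∀ a, 0 ≤ F a) →
      0 ≤ ∑ j : ZMod d, ‖ψ j‖ * F (ZMod.toAddCircle j) := fun F hF =>
    Finset.sum_nonneg fun j _ => mul_nonneg (norm_nonneg _) (hF _)
  refine ⟨(d:ℝ) ^ b * (∑ j : ZMod d, ‖ψ j‖ * E (ZMod.toAddCircle j)) +
    (d:ℝ) ^ b * (∑ j : ZMod d, ‖ψ j‖ * O (ZMod.toAddCircle j)), ?_, fun s hs => ?_⟩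
  · have := hs0 E hE0
    have := hs0 O hO0
    positivity
  unfold DirichletCharacter.completedLFunction
  rw [ZMod.completedLFunction_eq, ψ.map_zero' hd, ψ.sum_eq_zero_of_ne_one hψ]
  simp only [mul_zero, zero_div, sub_zero]
  unfold ZMod.completedLFunction₀
  refine (norm_add_le _ _).trans ?_
  rw [norm_mul, norm_mul]
  have h1 : ‖(d:ℂ) ^ (-s)‖ ≤ (d:ℝ) ^ b := by
    rw [Complex.norm_natCast_cpow_of_pos hd0]
    refine Real.rpow_le_rpow_of_exponent_le hd1 ?_
    have := (abs_le.1 hs).1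
    simp only [neg_re]
    linarith
  refine add_le_add (mul_le_mul h1 ?_ (norm_nonneg _) (by positivity))
    (mul_le_mul h1 ?_ (norm_nonneg _) (by positivity))
  · refine (norm_sum_le _ _).trans (Finset.sum_le_sum fun j _ => ?_)
    rw [norm_mul]
    exact mul_le_mul_of_nonneg_left (hE _ _ hs) (norm_nonneg _)
  · refine (norm_sum_le _ _).trans (Finset.sum_le_sum fun j _ => ?_)
    rw [norm_mul]
    exact mul_le_mul_of_nonneg_left (hO _ _ hs) (norm_nonneg _)

lemma norm_L_le_two {d : ℕ} [NeZero d] (ψ : DirichletCharacter ℂ d) {s : ℂ} (hs : 2 ≤ s.re) :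
    ‖DirichletCharacter.LFunction ψ s‖ ≤ 2 := by
  rw [DirichletCharacter.LFunction_eq_LSeries ψ (by linarith)]
  unfold LSeries
  have hterm : ∀ n : ℕ, ‖LSeries.term (fun n => ψ n) s n‖ ≤ 1 / (n : ℝ) ^ 2 := by
    intro n
    rw [LSeries.norm_term_eq]
    split_ifs with h
    · positivity
    · have hn : (1 : ℝ) ≤ n := by
        exact_mod_cast Nat.one_le_iff_ne_zero.2 h
      apply div_le_div₀ zero_le_one (DirichletCharacter.norm_le_one ψ _) (by positivity)
      rw [← Real.rpow_natCast]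
      exact Real.rpow_le_rpow_of_exponent_le hn (by exact_mod_cast hs)
  refine (tsum_of_norm_bounded hasSum_zeta_two hterm).trans ?_
  have hpi := Real.pi_lt_d2
  have hpi0 := Real.pi_pos
  nlinarith

lemma gammaR_line (B : ℝ) (hB : 2 ≤ B) (s : ℂ) (hs : s.re = B) :
    ‖Gammaℝ s‖ ≤ 64 * Real.Gamma (B / 2 + 3) / (1 + |s.im| / 2) := by
  have hG : 0 < Real.Gamma (B / 2 + 3) := Real.Gamma_pos_of_pos (by linarith)
  set u : ℝ := 1 + |s.im| / 2 with hu
  have hu0 : 1 ≤ u := by have := abs_nonneg s.im; rw [hu]; linarith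
  rw [Gammaℝ_def, norm_mul]
  have e1 : ‖(Real.pi : ℂ) ^ (-s / 2)‖ ≤ 1 := by
    rw [norm_cpow_eq_rpow_re_of_pos Real.pi_pos]
    apply Real.rpow_le_one_of_one_le_of_nonpos
    · linarith [Real.pi_gt_three]
    · simp
      linarith
  have e2 := norm_Gamma_decay (s / 2) (by simp; linarith) 3
  have e3 : (s / 2).re = B / 2 := by simp [hs]
  have e4 : (s / 2).im = s.im / 2 := by simp
  rw [e3, e4, abs_div, abs_two, ← hu] at e2
  norm_num at e2
  have e5 : 64 * Real.Gamma (B / 2 + 3) / u ^ 3 ≤ 64 * Real.Gamma (B / 2 + 3) / u := by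
    apply div_le_div_of_nonneg_left (by positivity) (by positivity)
    exact le_self_pow₀ hu0 (by norm_num)
  calc ‖(Real.pi : ℂ) ^ (-s / 2)‖ * ‖Complex.Gamma (s / 2)‖
      ≤ 1 * (64 * Real.Gamma (B / 2 + 3) / u ^ 3) := by gcongr
    _ = 64 * Real.Gamma (B / 2 + 3) / u ^ 3 := one_mul _
    _ ≤ _ := e5

/-- the function of the statement -/
noncomputable def Xi {d : ℕ} [NeZero d] (ψ : DirichletCharacter ℂ d) (s : ℂ) : ℂ :=
  (d : ℂ) ^ (s / 2) * DirichletCharacter.completedLFunction ψ s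

lemma chi_line {d : ℕ} [NeZero d] (ψ : DirichletCharacter ℂ d) (B : ℝ) (hB : 2 ≤ B) :
    ∃ C : ℝ, 0 ≤ C ∧ ∀ s : ℂ, s.re = B → (1 + ‖s‖) * ‖Xi ψ s‖ ≤ C := by
  have hd0 : 0 < d := Nat.pos_of_ne_zero (NeZero.ne d)
  obtain ⟨G, hG0, hG⟩ : ∃ G : ℝ, 0 < G ∧ ∀ s : ℂ, s.re = B →
      DirichletCharacter.gammaFactor ψ s ≠ 0 ∧
        ‖DirichletCharacter.gammaFactor ψ s‖ ≤ G / (1 + |s.im| / 2) := by
    rcases ψ.even_or_odd with h | h
    · refine ⟨64 * Real.Gamma (B / 2 + 3), ?_, fun s hs => ?_⟩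
      · have : 0 < Real.Gamma (B / 2 + 3) := Real.Gamma_pos_of_pos (by linarith)
        positivity
      · rw [h.gammaFactor_def]
        exact ⟨Gammaℝ_ne_zero_of_re_pos (by linarith), gammaR_line B hB s hs⟩
    · refine ⟨64 * Real.Gamma ((B + 1) / 2 + 3), ?_, fun s hs => ?_⟩
      · have : 0 < Real.Gamma ((B + 1) / 2 + 3) := Real.Gamma_pos_of_pos (by linarith)
        positivity
      · rw [h.gammaFactor_def]
        have hs1 : (s + 1).re = B + 1 := by simp [hs]
        refine ⟨Gammaℝ_ne_zero_of_re_pos (by linarith), ?_⟩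
        have h1 := gammaR_line (B + 1) (by linarith) (s + 1) hs1
        have h2 : (s + 1).im = s.im := by simp
        rwa [h2] at h1
  refine ⟨4 * B * (d:ℝ) ^ (B / 2) * G, by positivity, fun s hs => ?_⟩
  have h0 : s ≠ 0 := by
    rintro rfl
    simp at hs
    linarith
  obtain ⟨hg0, hg⟩ := hG s hs
  have hL := norm_L_le_two ψ (s := s) (by linarith)
  have e := DirichletCharacter.LFunction_eq_completed_div_gammaFactor ψ s (Or.inl h0)
  have e' : DirichletCharacter.completedLFunction ψ s =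
      DirichletCharacter.LFunction ψ s * DirichletCharacter.gammaFactor ψ s := by
    rw [e]
    field_simp
  unfold Xi
  rw [e', norm_mul, norm_mul, Complex.norm_natCast_cpow_of_pos hd0]
  have e3 : (s / 2).re = B / 2 := by simp [hs]
  rw [e3]
  set u : ℝ := 1 + |s.im| / 2 with hu
  have hu0 : 1 ≤ u := by have := abs_nonneg s.im; rw [hu]; linarith
  have hsn : ‖s‖ ≤ B * u := by
    have := norm_le_abs_re_add_abs_im s
    rw [hs, abs_of_nonneg (by linarith)] at this
    have := abs_nonneg s.im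
    nlinarith
  have hBu : 1 ≤ B * u := by nlinarith
  calc (1 + ‖s‖) * ((d:ℝ) ^ (B / 2) * (‖DirichletCharacter.LFunction ψ s‖ *
        ‖DirichletCharacter.gammaFactor ψ s‖))
      ≤ (2 * (B * u)) * ((d:ℝ) ^ (B / 2) * (2 * (G / u))) := by
        gcongr
        linarith
    _ = 4 * B * (d:ℝ) ^ (B / 2) * G := by
        have : u ≠ 0 := by positivity
        field_simp
        ring

lemma Xi_one_sub {d : ℕ} [NeZero d] (ψ : DirichletCharacter ℂ d) (hψ : ψ.IsPrimitive) (s : ℂ) :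
    Xi ψ (1 - s) = DirichletCharacter.rootNumber ψ * Xi ψ⁻¹ s := by
  have hd0 : (d : ℂ) ≠ 0 := Nat.cast_ne_zero.2 (NeZero.ne d)
  unfold Xi
  rw [hψ.completedLFunction_one_sub]
  have e : (d : ℂ) ^ (s / 2) = (d : ℂ) ^ ((1 - s) / 2) * (d : ℂ) ^ (s - 1 / 2) := by
    rw [← Complex.cpow_add _ _ hd0]
    congr 1
    ring
  rw [e]
  ring

theorem t_CHISTRIP : Pool.Agent.Y922.AQ.S_CHISTRIP := by
  intro d _ ψ hd hψ c b hc
  have hd0 : 0 < d := Nat.pos_of_ne_zero (NeZero.ne d)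
  have hd1 : (1 : ℝ) ≤ d := by exact_mod_cast hd0
  have hdc : (d : ℂ) ≠ 0 := Nat.cast_ne_zero.2 (NeZero.ne d)
  have hψ1 : ψ ≠ 1 := by
    rintro rfl
    have h : (1 : DirichletCharacter ℂ d).conductor = d := hψ
    rw [DirichletCharacter.conductor_one] at h
    exact hd h.symm
  obtain ⟨B, hB⟩ : ∃ B : ℝ, B = |b| + 2 := ⟨_, rfl⟩
  have hb0 := abs_nonneg b
  have hB2 : 2 ≤ B := by linarith
  obtain ⟨C₁, hC₁0, hC₁⟩ := chi_line ψ B hB2
  obtain ⟨C₂, hC₂0, hC₂⟩ := chi_line ψ⁻¹ B hB2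
  obtain ⟨D, hD0, hD⟩ := Lambda_bound ψ hd hψ1 B
  obtain ⟨C, hC⟩ : ∃ C : ℝ, C = C₁ + ‖DirichletCharacter.rootNumber ψ‖ * C₂ := ⟨_, rfl⟩
  have hW := norm_nonneg (DirichletCharacter.rootNumber ψ)
  have hC1 : C₁ ≤ C := by
    have := mul_nonneg hW hC₂0
    linarith
  have hC2 : ‖DirichletCharacter.rootNumber ψ‖ * C₂ ≤ C := by linarith
  have hC0 : 0 ≤ C := hC₁0.trans hC1
  have hdiff : Differentiable ℂ (Xi ψ) := by
    unfold Xi
    have h1 := DirichletCharacter.differentiable_completedLFunction hψ1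
    refine Differentiable.mul ?_ h1
    exact fun s => ((differentiableAt_id.div_const 2).const_cpow (Or.inl hdc))
  have key : ∀ s : ℂ, 1 - B ≤ s.re → s.re ≤ B → ‖s * Xi ψ s‖ ≤ C := by
    intro s hs1 hs2
    refine PhragmenLindelof.vertical_strip (f := fun s => s * Xi ψ s) (a := 1 - B) (b := B)
      ?_ ?_ ?_ ?_ hs1 hs2
    · exact (differentiable_id.mul hdiff).diffContOnCl
    · refine ⟨Real.pi / (B - (1 - B)) / 2, ?_, 1 / (Real.pi / (B - (1 - B)) / 2), ?_⟩
      · have : 0 < Real.pi / (B - (1 - B)) := div_pos Real.pi_pos (by linarith)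
        linarith
      · have hk : 0 < Real.pi / (B - (1 - B)) / 2 := by
          have : 0 < Real.pi / (B - (1 - B)) := div_pos Real.pi_pos (by linarith)
          linarith
        set k : ℝ := Real.pi / (B - (1 - B)) / 2
        refine Asymptotics.IsBigO.of_bound ((B + 1) * ((d:ℝ) ^ (B / 2) * D)) ?_
        refine Filter.mem_of_superset (Filter.mem_inf_of_right (mem_principal_self _)) fun z hz => ?_
        have hz1 : 1 - B < z.re := hz.1
        have hz2 : z.re < B := hz.2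
        have hzr : |z.re| ≤ B := abs_le.2 ⟨by linarith, by linarith⟩
        show ‖z * Xi ψ z‖ ≤ (B + 1) * ((d:ℝ) ^ (B / 2) * D) *
          ‖Real.exp (1 / k * Real.exp (k * |z.im|))‖
        rw [Real.norm_of_nonneg (Real.exp_pos _).le]
        have hzn : ‖z‖ ≤ (B + 1) * Real.exp |z.im| := by
          have h1 := norm_le_abs_re_add_abs_im z
          have h2 := Real.add_one_le_exp |z.im|
          have h3 := abs_nonneg z.im
          nlinarith
        have hx : ‖Xi ψ z‖ ≤ (d:ℝ) ^ (B / 2) * D := by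
          unfold Xi
          rw [norm_mul, Complex.norm_natCast_cpow_of_pos hd0]
          have h1 : (z / 2).re = z.re / 2 := by simp
          rw [h1]
          have h2 : (d:ℝ) ^ (z.re / 2) ≤ (d:ℝ) ^ (B / 2) :=
            Real.rpow_le_rpow_of_exponent_le hd1 (by linarith)
          exact mul_le_mul h2 (hD z hzr) (norm_nonneg _) (by positivity)
        rw [norm_mul]
        have h6 : Real.exp |z.im| ≤ Real.exp (1 / k * Real.exp (k * |z.im|)) := by
          apply Real.exp_le_exp.2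
          have h7 := Real.add_one_le_exp (k * |z.im|)
          rw [div_mul_eq_mul_div, le_div_iff₀ hk]
          nlinarith
        calc ‖z‖ * ‖Xi ψ z‖ ≤ ((B + 1) * Real.exp |z.im|) * ((d:ℝ) ^ (B / 2) * D) := by
              gcongr
          _ = (B + 1) * ((d:ℝ) ^ (B / 2) * D) * Real.exp |z.im| := by ring
          _ ≤ _ := by gcongr
    · intro z hz
      have h1 := hC₂ (1 - z) (by simp [hz])
      have h0 : Xi ψ z = DirichletCharacter.rootNumber ψ * Xi ψ⁻¹ (1 - z) := by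
        rw [← Xi_one_sub ψ hψ]
        congr 1
        ring
      show ‖z * Xi ψ z‖ ≤ C
      rw [h0, norm_mul, norm_mul]
      have h2 : ‖z‖ ≤ 1 + ‖1 - z‖ := by
        have h2 := norm_sub_le (1:ℂ) (1 - z)
        rw [norm_one] at h2
        simpa using h2
      calc ‖z‖ * (‖DirichletCharacter.rootNumber ψ‖ * ‖Xi ψ⁻¹ (1 - z)‖)
          ≤ (1 + ‖1 - z‖) * (‖DirichletCharacter.rootNumber ψ‖ * ‖Xi ψ⁻¹ (1 - z)‖) := by
            gcongr
        _ = ‖DirichletCharacter.rootNumber ψ‖ * ((1 + ‖1 - z‖) * ‖Xi ψ⁻¹ (1 - z)‖) := by ring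
        _ ≤ ‖DirichletCharacter.rootNumber ψ‖ * C₂ := by gcongr
        _ ≤ C := hC2
    · intro z hz
      have h1 := hC₁ z hz
      refine le_trans ?_ (h1.trans hC1)
      show ‖z * Xi ψ z‖ ≤ _
      rw [norm_mul]
      gcongr
      linarith
  refine ⟨C / c + 1, fun s hs1 hs2 => ?_⟩
  have h1 := abs_le.1 (hs1.trans (le_abs_self b))
  have h2 := key s (by linarith) (by linarith)
  rw [norm_mul] at h2
  have h3 := abs_im_le_norm s
  have h4 : 0 ≤ C / c := div_nonneg hC0 hc.le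
  have h5 : C < c * ‖s‖ := by
    have h6 : C / c < ‖s‖ := by linarith
    rw [div_lt_iff₀ hc] at h6
    linarith
  show ‖Xi ψ s‖ < c
  by_contra h7
  push Not at h7
  have h8 : ‖s‖ * c ≤ ‖s‖ * ‖Xi ψ s‖ := by gcongr
  linarith

end Pool.Agent.Y312.AQ
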